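import Pool.Agent.Work.MP_c9932b_sb.Interface

/-! Block SGN: the sign test. -/

set_option autoImplicit false

open Finset

namespace Pool.SBM.helper70

section basics

variable {R : Type} [CommRing R] [LinearOrder R] [IsStrictOrderedRing R]

/-- the product -/
def Pi (K : ℕ) (q : R) : R := ∏ i ∈ range (K + 1), (q + (i : R))

lemma Pi_pos (K : ℕ) {q : R} (hq : 0 < q) : 0 < Pi K q := by
  apply Finset.prod_pos
  intro i _
  have : (0 : R) ≤ (i : R) := Nat.cast_nonneg i
  linarith

lemma Pi_mono (K : ℕ) {q q' : R} (hq : 0 ≤ q) (h : q ≤ q') : Pi K q ≤ Pi K q' := by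
  apply Finset.prod_le_prod
  · intro i _
    have : (0 : R) ≤ (i : R) := Nat.cast_nonneg i
    linarith
  · intro i _
    linarith

lemma Pi_shift (K : ℕ) (q : R) : Pi K (q + 1) * q = Pi K q * (q + (K + 1)) := by
  unfold Pi
  have h1 : (∏ i ∈ range (K + 1), (q + 1 + (i : R))) * q
      = ∏ i ∈ range (K + 2), (q + (i : R)) := by
    rw [Finset.prod_range_succ' (fun i : ℕ => q + (i : R)) (K + 1)]
    simp only [Nat.cast_zero, add_zero]
    congr 1
    apply Finset.prod_congr rfl
    intro i _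
    push_cast
    ring
  rw [h1, Finset.prod_range_succ]
  push_cast
  ring

lemma Pi_succ_le (K : ℕ) {q : R} (hq : 1 ≤ q) : Pi K (q + 1) ≤ ((K : R) + 2) * Pi K q := by
  have h0 : 0 < q := lt_of_lt_of_le one_pos hq
  have h1 := Pi_shift K q
  have hK : (0 : R) ≤ (K : R) := Nat.cast_nonneg K
  have h2 : q + ((K : R) + 1) ≤ ((K : R) + 2) * q := by nlinarith
  have h3 := Pi_pos K h0
  have h4 : Pi K (q + 1) * q ≤ (((K : R) + 2) * Pi K q) * q := by
    rw [h1]
    calc Pi K q * (q + ((K : R) + 1)) ≤ Pi K q * (((K : R) + 2) * q) :=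
          mul_le_mul_of_nonneg_left h2 h3.le
      _ = (((K : R) + 2) * Pi K q) * q := by ring
  exact le_of_mul_le_mul_right h4 h0

lemma Pi_one (K : ℕ) : Pi K (1 : R) = ((K + 1).factorial : R) := by
  unfold Pi
  rw [← Finset.prod_range_add_one_eq_factorial]
  push_cast
  apply Finset.prod_congr rfl
  intro i _
  ring

lemma std (hd : ∀ x : R, 0 < x → 1 ≤ x) (n : ℕ) (a : R) (ha : 0 ≤ a) (h : a ≤ (n : R)) :
    ∃ k : ℕ, k ≤ n ∧ a = (k : R) := by
  induction n generalizing a with
  | zero =>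
    refine ⟨0, le_rfl, ?_⟩
    simp only [Nat.cast_zero] at h ⊢
    exact le_antisymm h ha
  | succ n ih =>
    rcases eq_or_lt_of_le ha with h0 | h0
    · exact ⟨0, by omega, by simpa using h0.symm⟩
    · have h1 := hd a h0
      obtain ⟨k, hk, hk'⟩ := ih (a - 1) (by linarith) (by push_cast at h; linarith)
      exact ⟨k + 1, by omega, by push_cast; linarith⟩

lemma std_int (hd : ∀ x : R, 0 < x → 1 ≤ x) (n : ℕ) (a : R) (h : |a| ≤ (n : R)) :
    ∃ k : ℤ, |k| ≤ (n : ℤ) ∧ a = (k : R) := by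
  rcases le_total 0 a with h0 | h0
  · obtain ⟨k, hk, rfl⟩ := std hd n a h0 (by rwa [abs_of_nonneg h0] at h)
    exact ⟨k, by simpa using hk, by simp⟩
  · obtain ⟨k, hk, h1⟩ := std hd n (-a) (by linarith) (by rwa [abs_of_nonpos h0] at h)
    refine ⟨-k, by simpa using hk, ?_⟩
    push_cast
    linarith

/-- no wrap around -/
lemma nowrap (hd : ∀ x : R, 0 < x → 1 ≤ x) (K : ℕ) (N q : R) (S : ℤ) (hq : 1 ≤ q)
    (hS : Star K N q S)
    (hM : |(WK K : R) * (K.factorial : R) * N| ≤ 3 * 2 ^ K * (((K : R) + 2) * Pi K q)) :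
    ∃ S0 : ℤ, |(WK K : R) * (K.factorial : R) * N - Pi K q * (S0 : R)| ≤ 2 ^ K * Pi K q ∧
      (ClsP K S ↔ 2 ^ (K + 1) ≤ S0) ∧ (ClsM K S ↔ S0 ≤ -2 ^ (K + 1)) := by
  obtain ⟨Z, hZ⟩ := hS
  change |(WK K : R) * (K.factorial : R) * N - Pi K q * ((WK K : R) * Z + (S : R))|
    ≤ 2 ^ K * Pi K q at hZ
  have hP : 0 < Pi K q := Pi_pos K (lt_of_lt_of_le one_pos hq)
  set M := (WK K : R) * (K.factorial : R) * N with hMdef
  set X := (WK K : R) * Z + (S : R) with hX
  have h2K : (0 : R) < 2 ^ K := by positivity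
  -- bound for X
  have hXb : |X| ≤ ((3 * 2 ^ K * (K + 2) + 2 ^ K : ℕ) : R) := by
    have h1 : Pi K q * |X| ≤ Pi K q * (3 * 2 ^ K * ((K : R) + 2) + 2 ^ K) := by
      have h3 : Pi K q * |X| = |Pi K q * X| := by rw [abs_mul, abs_of_pos hP]
      rw [h3]
      have h4 : |Pi K q * X| ≤ |M - Pi K q * X| + |M| := by
        have := abs_sub_abs_le_abs_sub (Pi K q * X) M
        rw [abs_sub_comm] at this
        linarith
      nlinarith
    have h2 := le_of_mul_le_mul_left h1 hP
    push_cast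
    exact h2
  obtain ⟨S0, hS0, hS0X⟩ := std_int hd _ X hXb
  -- bound for Z
  have hWpos : 0 < WK K := by unfold WK; positivity
  have hW1 : (1 : R) ≤ (WK K : R) := by exact_mod_cast hWpos
  have hZb : |Z| ≤ (((S0 - S).natAbs : ℕ) : R) := by
    have h1 : (WK K : R) * Z = ((S0 - S : ℤ) : R) := by push_cast; rw [← hS0X, hX]; ring
    have h2 : |Z| ≤ |(WK K : R) * Z| := by
      rw [abs_mul, abs_of_nonneg (by linarith : (0 : R) ≤ (WK K : R))]
      nlinarith [abs_nonneg Z]
    rw [h1, ← Int.cast_abs] at h2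
    rw [← Int.cast_natCast, Int.natCast_natAbs]
    exact h2
  obtain ⟨z, -, hz⟩ := std_int hd _ Z hZb
  have hint : (WK K : ℤ) * z + S = S0 := by
    have : (((WK K : ℤ) * z + S : ℤ) : R) = (S0 : R) := by
      push_cast
      rw [← hz, ← hS0X, hX]
    exact_mod_cast this
  have hb : 2 * |S0| < (WK K : ℤ) := by
    have h5 : (2 : ℤ) * ((3 * 2 ^ K * (K + 2) + 2 ^ K : ℕ) : ℤ) < (WK K : ℤ) := by
      unfold WK
      push_cast
      have : (0 : ℤ) < 2 ^ K := by positivity
      have h6 : (2 : ℤ) ^ (K + 3) = 8 * 2 ^ K := by ring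
      rw [h6]
      have hK : (0 : ℤ) ≤ (K : ℤ) := Int.natCast_nonneg K
      nlinarith
    linarith
  have h2K' : (0 : ℤ) < 2 ^ (K + 1) := by positivity
  refine ⟨S0, by rw [← hS0X]; exact hZ, ?_⟩
  have hmod : S % (WK K : ℤ) = S0 % (WK K : ℤ) := by
    rw [← hint]
    simp [Int.add_emod]
  unfold ClsP ClsM
  rw [hmod]
  have hWz : (0 : ℤ) < (WK K : ℤ) := by exact_mod_cast hWpos
  generalize (WK K : ℤ) = W at *
  generalize (2 : ℤ) ^ (K + 1) = c at *
  rcases le_or_gt 0 S0 with h0 | h0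
  · rw [abs_of_nonneg h0] at hb
    rw [Int.emod_eq_of_lt h0 (by linarith)]
    constructor
    · constructor
      · rintro ⟨h, -⟩; exact h
      · intro h; exact ⟨h, hb⟩
    · constructor
      · rintro ⟨h, -⟩; linarith
      · intro h; linarith
  · rw [abs_of_neg h0] at hb
    have : S0 % W = S0 + W := by
      rw [← Int.add_emod_right, Int.emod_eq_of_lt (by linarith) (by linarith)]
    rw [this]
    constructor
    · constructor
      · rintro ⟨-, h⟩; linarith
      · intro h; linarith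
    · constructor
      · rintro ⟨-, h⟩; linarith
      · intro h; exact ⟨by linarith, by linarith⟩

/-- a clearly positive approximation means a positive number -/
lemma pos_of_clsP (hd : ∀ x : R, 0 < x → 1 ≤ x) (K : ℕ) (N q : R) (S : ℤ) (hq : 1 ≤ q)
    (hS : Star K N q S)
    (hM : |(WK K : R) * (K.factorial : R) * N| ≤ 3 * 2 ^ K * (((K : R) + 2) * Pi K q))
    (h : ClsP K S) : 0 < N := by
  obtain ⟨S0, h1, h2, -⟩ := nowrap hd K N q S hq hS hM
  have h3 := h2.1 h
  have hP : 0 < Pi K q := Pi_pos K (lt_of_lt_of_le one_pos hq)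
  have h4 : (2 ^ (K + 1) : R) ≤ (S0 : R) := by exact_mod_cast h3
  have h5 : (0 : R) < 2 ^ K := by positivity
  have h6 := abs_le.1 h1
  have h7 : 0 < (WK K : R) * (K.factorial : R) * N := by
    have h8 : Pi K q * 2 ^ (K + 1) ≤ Pi K q * (S0 : R) := mul_le_mul_of_nonneg_left h4 hP.le
    have h9 : 0 < Pi K q * 2 ^ K := mul_pos hP h5
    rw [pow_succ] at h8
    nlinarith [h6.1]
  have hW : (0 : R) ≤ (WK K : R) * (K.factorial : R) := by positivity
  exact pos_of_mul_pos_right h7 hW

lemma neg_of_clsM (hd : ∀ x : R, 0 < x → 1 ≤ x) (K : ℕ) (N q : R) (S : ℤ) (hq : 1 ≤ q)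
    (hS : Star K N q S)
    (hM : |(WK K : R) * (K.factorial : R) * N| ≤ 3 * 2 ^ K * (((K : R) + 2) * Pi K q))
    (h : ClsM K S) : N < 0 := by
  obtain ⟨S0, h1, -, h2⟩ := nowrap hd K N q S hq hS hM
  have h3 := h2.1 h
  have hP : 0 < Pi K q := Pi_pos K (lt_of_lt_of_le one_pos hq)
  have h4 : (S0 : R) ≤ (-2 ^ (K + 1) : R) := by
    have := (Int.cast_le (R := R)).2 h3
    push_cast at this
    exact this
  have h5 : (0 : R) < 2 ^ K := by positivity
  have h6 := abs_le.1 h1
  have h7 : (WK K : R) * (K.factorial : R) * N < 0 := by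
    have h8 : Pi K q * (S0 : R) ≤ Pi K q * (-2 ^ (K + 1)) := mul_le_mul_of_nonneg_left h4 hP.le
    have h9 : 0 < Pi K q * 2 ^ K := mul_pos hP h5
    rw [pow_succ] at h8
    nlinarith [h6.2]
  have hW : (0 : R) ≤ (WK K : R) * (K.factorial : R) := by positivity
  exact neg_of_mul_neg_right h7 hW

lemma clsP_of_pos (hd : ∀ x : R, 0 < x → 1 ≤ x) (K : ℕ) (N q : R) (S : ℤ) (hq : 1 ≤ q)
    (hS : Star K N q S)
    (hM : |(WK K : R) * (K.factorial : R) * N| ≤ 3 * 2 ^ K * (((K : R) + 2) * Pi K q))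
    (hM2 : 3 * 2 ^ K * Pi K q ≤ |(WK K : R) * (K.factorial : R) * N|)
    (h : 0 < N) : ClsP K S := by
  obtain ⟨S0, h1, h2, -⟩ := nowrap hd K N q S hq hS hM
  have hP : 0 < Pi K q := Pi_pos K (lt_of_lt_of_le one_pos hq)
  have h5 : (0 : R) < 2 ^ K := by positivity
  have h6 := abs_le.1 h1
  have hW : (0 : R) ≤ (WK K : R) * (K.factorial : R) := by positivity
  rw [abs_of_nonneg (mul_nonneg hW h.le)] at hM2
  rw [h2]
  have h7 : Pi K q * 2 ^ (K + 1) ≤ Pi K q * (S0 : R) := by
    rw [pow_succ]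
    nlinarith [h6.2]
  have h8 := le_of_mul_le_mul_left h7 hP
  exact_mod_cast h8

lemma clsM_of_neg (hd : ∀ x : R, 0 < x → 1 ≤ x) (K : ℕ) (N q : R) (S : ℤ) (hq : 1 ≤ q)
    (hS : Star K N q S)
    (hM : |(WK K : R) * (K.factorial : R) * N| ≤ 3 * 2 ^ K * (((K : R) + 2) * Pi K q))
    (hM2 : 3 * 2 ^ K * Pi K q ≤ |(WK K : R) * (K.factorial : R) * N|)
    (h : N < 0) : ClsM K S := by
  obtain ⟨S0, h1, -, h2⟩ := nowrap hd K N q S hq hS hM
  have hP : 0 < Pi K q := Pi_pos K (lt_of_lt_of_le one_pos hq)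
  have h5 : (0 : R) < 2 ^ K := by positivity
  have h6 := abs_le.1 h1
  have hW : (0 : R) ≤ (WK K : R) * (K.factorial : R) := by positivity
  rw [abs_of_nonpos (mul_nonpos_of_nonneg_of_nonpos hW h.le)] at hM2
  rw [h2]
  have h7 : Pi K q * (S0 : R) ≤ Pi K q * (-2 ^ (K + 1)) := by
    rw [pow_succ]
    nlinarith [h6.1]
  have h8 := le_of_mul_le_mul_left h7 hP
  rw [← Int.cast_le (R := R)]
  push_cast
  exact h8

lemma lt_add_one_iff' (hd : ∀ x : R, 0 < x → 1 ≤ x) {a b : R} : a < b + 1 ↔ a ≤ b := by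
  constructor
  · intro h
    by_contra hc
    push Not at hc
    have := hd (a - b) (by linarith)
    linarith
  · intro h; linarith

end basics

/-- the product as a term in the variable `0` -/
def tPi : ℕ → Tm
  | 0 => .var 0
  | k + 1 => .mul (tPi k) (.add (.var 0) (Tm.num (k + 1)))

lemma tPi_eval {R : Type} [CommRing R] (v : ℕ → R) (K : ℕ) :
    (tPi K).eval v = ∏ i ∈ range (K + 1), (v 0 + (i : R)) := by
  induction K with
  | zero => simp [tPi]
  | succ K ih => rw [Finset.prod_range_succ, tPi, Tm.eval_mul, ih]; simp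

theorem stmt_SGN (hMAX : Stmt_MAX) : Stmt_SGN := by
  intro K R _ _ _ hR φp φm v N T Q0 hv hQ0 hQT hex hp hm hbig
  have hd := hR.disc
  have hWpos : 0 < WK K := by unfold WK; positivity
  have hW1 : (1 : R) ≤ (WK K : R) := by exact_mod_cast hWpos
  have hfac : (1 : R) ≤ (K.factorial : R) := by exact_mod_cast Nat.factorial_pos K
  have hW : (0 : R) ≤ (WK K : R) * (K.factorial : R) := by positivity
  have h2K : (0 : R) < 2 ^ K := by positivity
  have hT0 : 0 ≤ T := le_trans (le_trans zero_le_one hQ0) hQT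
  rcases eq_or_ne N 0 with hN | hN
  · -- N = 0
    constructor
    · intro h; rw [hN] at h; exact absurd h (lt_irrefl _)
    · rintro ⟨q, -, hqT, hq1, hφ, -⟩
      obtain ⟨S, hS, hc⟩ := hp q hq1 hqT hφ
      refine pos_of_clsP hd K N q S hq1 hS ?_ hc
      rw [hN, mul_zero, abs_zero]
      have := Pi_pos K (lt_of_lt_of_le one_pos hq1)
      positivity
  · set M := (WK K : R) * (K.factorial : R) * N with hMdef
    have hM0 : 0 ≤ |M| := abs_nonneg M
    have hMabs : |M| = (WK K : R) * (K.factorial : R) * |N| := by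
      rw [hMdef, abs_mul, abs_of_nonneg hW]
    have hbig' : |M| < 3 * 2 ^ K * Pi K (Q0 + 1) := by rw [hMabs]; exact hbig
    have hNabs : (1 : R) ≤ |N| := hd _ (abs_pos.2 hN)
    -- the last q with a large value
    obtain ⟨q1, hq10, hq1, hq1max⟩ := hMAX R hR
      (.opn (.le (.mul (.mul (Tm.num 3) ((Tm.num 2).pow K)) (tPi K)) (.var 1)))
      (push |M| v) Q0 (push_nonneg hM0 hv)
      ⟨1, zero_le_one, by
        simp only [D0.eval_opn, Opn.eval_le, Tm.eval_mul, Tm.eval_num, Tm.eval_pow, tPi_eval,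
          push_zero', Tm.eval_var, push_one']
        have h1 : (∏ i ∈ range (K + 1), ((1 : R) + (i : R))) = Pi K 1 := rfl
        rw [h1, Pi_one, hMabs]
        have h2 : ((3 * 2 ^ K * (K + 1).factorial : ℕ) : R) ≤ ((WK K * K.factorial : ℕ) : R) := by
          have : 3 * 2 ^ K * (K + 1).factorial ≤ WK K * K.factorial := by
            rw [Nat.factorial_succ]
            unfold WK
            have h3 : 3 * (K + 1) ≤ 8 * (K + 2) := by omega
            calc 3 * 2 ^ K * ((K + 1) * K.factorial) = (2 ^ K * K.factorial) * (3 * (K + 1)) := by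
                  ring
              _ ≤ (2 ^ K * K.factorial) * (8 * (K + 2)) := Nat.mul_le_mul_left _ h3
              _ = 2 ^ (K + 3) * (K + 2) * K.factorial := by ring
          exact_mod_cast this
        push_cast at h2 ⊢
        nlinarith⟩
      (by
        intro a ha h
        simp only [D0.eval_opn, Opn.eval_le, Tm.eval_mul, Tm.eval_num, Tm.eval_pow, tPi_eval,
          push_zero', Tm.eval_var, push_one'] at h
        by_contra hc
        push Not at hc
        have h1 : Q0 + 1 ≤ a := by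
          have := hd (a - Q0) (by linarith)
          linarith
        have h2 : Pi K (Q0 + 1) ≤ Pi K a := Pi_mono K (by linarith) h1
        have h3 : (3 : R) * 2 ^ K * Pi K a ≤ |M| := by
          have h4 : (∏ i ∈ range (K + 1), (a + (i : R))) = Pi K a := rfl
          rw [h4] at h
          push_cast at h
          exact h
        have h5 : (3 : R) * 2 ^ K * Pi K (Q0 + 1) ≤ 3 * 2 ^ K * Pi K a :=
          mul_le_mul_of_nonneg_left h2 (by positivity)
        linarith)
    simp only [D0.eval_opn, Opn.eval_le, Tm.eval_mul, Tm.eval_num, Tm.eval_pow, tPi_eval,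
      push_zero', Tm.eval_var, push_one'] at hq1 hq1max
    push_cast at hq1 hq1max
    have hone : (1 : R) ≤ q1 := by
      apply hq1max 1 zero_le_one
      have h1 : (∏ i ∈ range (K + 1), ((1 : R) + (i : R))) = Pi K 1 := rfl
      rw [h1, Pi_one, hMabs]
      have h2 : ((3 * 2 ^ K * (K + 1).factorial : ℕ) : R) ≤ ((WK K * K.factorial : ℕ) : R) := by
        have : 3 * 2 ^ K * (K + 1).factorial ≤ WK K * K.factorial := by
          rw [Nat.factorial_succ]
          unfold WK
          have h3 : 3 * (K + 1) ≤ 8 * (K + 2) := by omega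
          calc 3 * 2 ^ K * ((K + 1) * K.factorial) = (2 ^ K * K.factorial) * (3 * (K + 1)) := by
                ring
            _ ≤ (2 ^ K * K.factorial) * (8 * (K + 2)) := Nat.mul_le_mul_left _ h3
            _ = 2 ^ (K + 3) * (K + 2) * K.factorial := by ring
        exact_mod_cast this
      push_cast at h2 ⊢
      nlinarith
    have hq1' : 3 * 2 ^ K * Pi K q1 ≤ |M| := hq1
    have hq1Q : q1 ≤ Q0 := by
      by_contra hc
      push Not at hc
      have h1 : Q0 + 1 ≤ q1 := by
        have := hd (q1 - Q0) (by linarith)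
        linarith
      have h2 : Pi K (Q0 + 1) ≤ Pi K q1 := Pi_mono K (by linarith) h1
      have h5 : (3 : R) * 2 ^ K * Pi K (Q0 + 1) ≤ 3 * 2 ^ K * Pi K q1 :=
        mul_le_mul_of_nonneg_left h2 (by positivity)
      linarith
    -- no wrap around from q1 on
    have hnw : ∀ q : R, q1 ≤ q → |M| ≤ 3 * 2 ^ K * (((K : R) + 2) * Pi K q) := by
      intro q hq
      have h1 : ¬ (3 * 2 ^ K * Pi K (q1 + 1) ≤ |M|) := by
        intro h
        have := hq1max (q1 + 1) (by linarith) h
        linarith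
      push Not at h1
      have h2 := Pi_succ_le K hone
      have h3 : Pi K q1 ≤ Pi K q := Pi_mono K hq10 hq
      have h4 : ((K : R) + 2) * Pi K q1 ≤ ((K : R) + 2) * Pi K q :=
        mul_le_mul_of_nonneg_left h3 (by positivity)
      have h5 : (3 : R) * 2 ^ K * Pi K (q1 + 1) ≤ 3 * 2 ^ K * (((K : R) + 2) * Pi K q) :=
        mul_le_mul_of_nonneg_left (h2.trans h4) (by positivity)
      linarith
    obtain ⟨S1, hS1, hp1, hm1⟩ := hex q1 hone hq1Q
    have hposP : ∀ q : R, q1 ≤ q → q ≤ T → φp.eval (push q v) → 0 < N := by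
      intro q h1 h2 h3
      obtain ⟨S, hS, hc⟩ := hp q (hone.trans h1) h2 h3
      exact pos_of_clsP hd K N q S (hone.trans h1) hS (hnw q h1) hc
    have hnegM : ∀ q : R, q1 ≤ q → q ≤ T → φm.eval (push q v) → N < 0 := by
      intro q h1 h2 h3
      obtain ⟨S, hS, hc⟩ := hm q (hone.trans h1) h2 h3
      exact neg_of_clsM hd K N q S (hone.trans h1) hS (hnw q h1) hc
    have hdet : φp.eval (push q1 v) ∨ φm.eval (push q1 v) := by
      rcases lt_or_gt_of_ne hN with h | h
      · right
        exact hm1.2 (clsM_of_neg hd K N q1 S1 hone hS1 (hnw q1 le_rfl) hq1' h)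
      · left
        exact hp1.2 (clsP_of_pos hd K N q1 S1 hone hS1 (hnw q1 le_rfl) hq1' h)
    constructor
    · intro hpos
      -- the last detected q
      let σ : ℕ → Tm := fun i => match i with
        | 0 => .var 0
        | i + 1 => .var (i + 2)
      have hσ : ∀ a : R, (fun i => (σ i).eval (push a (push T v))) = push a v := by
        intro a
        funext i
        cases i with
        | zero => rfl
        | succ i => rfl
      obtain ⟨q, hq0, hq, hqmax⟩ := hMAX R hR
        (.and (.or (φp.subst σ) (φm.subst σ)) (.le (.var 0) (.var 1)))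
        (push T v) T (push_nonneg hT0 hv)
        ⟨q1, hq10, by
          simp only [D0.eval_and, D0.eval_or, D0.eval_subst, hσ, D0.eval_le, Tm.eval_var,
            push_zero', push_one']
          exact ⟨hdet, hq1Q.trans hQT⟩⟩
        (by
          intro a ha h
          simp only [D0.eval_and, D0.eval_or, D0.eval_subst, hσ, D0.eval_le, Tm.eval_var,
            push_zero', push_one'] at h
          exact h.2)
      simp only [D0.eval_and, D0.eval_or, D0.eval_subst, hσ, D0.eval_le, Tm.eval_var,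
            push_zero', push_one'] at hq hqmax
      have hqq : q1 ≤ q := hqmax q1 hq10 ⟨hdet, hq1Q.trans hQT⟩
      have hφ : φp.eval (push q v) := by
        rcases hq.1 with h | h
        · exact h
        · exact absurd (hnegM q hqq hq.2 h) (not_lt.2 hpos.le)
      refine ⟨q, hq0, hq.2, hone.trans hqq, hφ, ?_⟩
      intro q' h0 hT' hlt
      constructor
      · intro h
        exact absurd (hqmax q' h0 ⟨Or.inl h, hT'⟩) (not_le.2 hlt)
      · intro h
        exact absurd (hqmax q' h0 ⟨Or.inr h, hT'⟩) (not_le.2 hlt)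
    · rintro ⟨q, hq0, hqT, hq1', hφ, hall⟩
      have hqq : q1 ≤ q := by
        by_contra hc
        push Not at hc
        have h := hall q1 hq10 (hq1Q.trans hQT) hc
        rcases hdet with h1 | h1
        · exact h.1 h1
        · exact h.2 h1
      exact hposP q hqq hqT hφ

end Pool.SBM.helper70
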